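import Mathlib

namespace Pool.Agent.Results.MP_990a44_co.SqrtFactor

open Finset

/-- `A` and `B` form an `(n, δ)` constant distance code pair over the alphabet `Fin q`. -/
def ConstDist {q n : ℕ} (δ : ℕ) (A B : Finset (Fin n → Fin q)) : Prop :=
  ∀ x ∈ A, ∀ y ∈ B, hammingDist x y = δ

/-- `M_q(n, δ)`: the largest product of cardinalities of an `(n, δ)` constant distance code pair. -/
noncomputable def M (q n δ : ℕ) : ℕ :=
  sSup {k : ℕ | ∃ A B : Finset (Fin n → Fin q), ConstDist δ A B ∧ k = A.card * B.card}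

/-- `q̄ = ⌊q/2⌋ ⌈q/2⌉`. -/
def qbar (q : ℕ) : ℕ := (q / 2) * ((q + 1) / 2)

/-- Ahlswede's function `F_q(n, δ)`, separately for `q = 2`, `q = 3` and `q ≥ 4`. -/
def F (q n δ : ℕ) : ℕ :=
  if q = 2 then
    ((range (δ + 1)).filter fun i => 2 * i ≤ n).sup
      fun i => 4 ^ i * (n - 2 * i).choose (δ - i)
  else if q = 3 then
    ((range (δ + 1)).filter fun i => 3 * i ≤ n ∧ 2 * i ≤ δ).sup
      fun i => 2 ^ (δ - 2 * i) * 18 ^ i * (n - 3 * i).choose (δ - 2 * i)
  else
    (range (δ + 1)).sup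
      fun i => (q - 1) ^ (δ - i) * qbar q ^ i * (n - i).choose (δ - i)

/-! ### Additive pairs -/

section Core

variable {α : Type*} [Fintype α] [DecidableEq α]

/-- Additivity of the distance on `A × B`. -/
def AddPair {n : ℕ} (A B : Finset (Fin n → α)) : Prop :=
  ∀ x ∈ A, ∀ x' ∈ A, ∀ y ∈ B, ∀ y' ∈ B,
    hammingDist x y + hammingDist x' y' = hammingDist x y' + hammingDist x' y

/-- zero-one distance on letters -/
def dd (i j : α) : ℕ := if i = j then 0 else 1

omit [Fintype α] in
lemma hd_cons {n : ℕ} (i j : α) (x y : Fin n → α) :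
    hammingDist (Fin.cons i x : Fin (n + 1) → α) (Fin.cons j y) = dd i j + hammingDist x y := by
  unfold hammingDist dd
  rw [Finset.card_filter, Finset.card_filter, Fin.sum_univ_succ]
  simp only [Fin.cons_zero, Fin.cons_succ]
  by_cases h : i = j <;> simp [h]

lemma mul_le_qbar {a b q : ℕ} (h : a + b ≤ q) : a * b ≤ qbar q := by
  unfold qbar
  rcases Nat.even_or_odd' q with ⟨k, rfl | rfl⟩
  · have h1 : 2 * k / 2 = k := by omega
    have h2 : (2 * k + 1) / 2 = k := by omega
    rw [h1, h2]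
    zify at *
    nlinarith [sq_nonneg ((a : ℤ) - b)]
  · have h1 : (2 * k + 1) / 2 = k := by omega
    have h2 : (2 * k + 1 + 1) / 2 = k + 1 := by omega
    rw [h1, h2]
    rcases Nat.lt_or_ge k a with ha | ha
    · have hb : b ≤ k := by omega
      obtain ⟨c, rfl⟩ := Nat.exists_eq_add_of_lt ha
      have : b + c ≤ k := by omega
      nlinarith [Nat.zero_le b, Nat.zero_le c, Nat.zero_le k]
    · rcases Nat.lt_or_ge k b with hb | hb
      · obtain ⟨c, rfl⟩ := Nat.exists_eq_add_of_lt hb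
        have : a + c ≤ k := by omega
        nlinarith [Nat.zero_le a, Nat.zero_le c, Nat.zero_le k]
      · nlinarith [Nat.mul_le_mul ha hb]

/-- One coordinate. -/
lemma one_coord {s L : ℝ} (hs : 0 < s)
    (hL1 : 1 + ((Fintype.card α : ℝ) - 1) * s ≤ L) (hL2 : (qbar (Fintype.card α) : ℝ) * s ≤ L)
    (S J : Finset α) (a b : α → ℝ)
    (hab : ∀ i ∈ S, ∀ j ∈ J, a i * b j = s ^ dd i j)
    (hadd : ∀ i ∈ S, ∀ i' ∈ S, ∀ j ∈ J, ∀ j' ∈ J, dd i j + dd i' j' = dd i j' + dd i' j) :
    (∑ i ∈ S, a i) * (∑ j ∈ J, b j) ≤ L := by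
  have key : (∑ i ∈ S, a i) * (∑ j ∈ J, b j) = ∑ i ∈ S, ∑ j ∈ J, s ^ dd i j := by
    rw [Finset.sum_mul_sum]
    exact Finset.sum_congr rfl fun i hi => Finset.sum_congr rfl fun j hj => hab i hi j hj
  rw [key]
  have hstar : ∀ (x : α) (T : Finset α), x ∈ T → ∑ j ∈ T, s ^ dd x j ≤ L := by
    intro x T hx
    rw [← Finset.add_sum_erase T _ hx]
    have h1 : ∑ j ∈ T.erase x, s ^ dd x j = ((T.card : ℝ) - 1) * s := by
      rw [Finset.sum_congr rfl (g := fun _ => s)]
      · rw [Finset.sum_const, Finset.card_erase_of_mem hx, nsmul_eq_mul,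
          Nat.cast_sub (Finset.card_pos.mpr ⟨x, hx⟩)]
        simp
      · intro j hj
        have : x ≠ j := fun h => (Finset.mem_erase.mp hj).1 h.symm
        simp [dd, this]
    rw [h1]
    have h2 : (T.card : ℝ) ≤ Fintype.card α := by exact_mod_cast Finset.card_le_univ T
    have h3 : dd x x = 0 := by simp [dd]
    rw [h3, pow_zero]
    nlinarith
  by_cases hdis : Disjoint S J
  · have h1 : ∑ i ∈ S, ∑ j ∈ J, s ^ dd i j = (S.card * J.card : ℝ) * s := by
      rw [Finset.sum_congr rfl (g := fun _ => (J.card : ℝ) * s)]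
      · rw [Finset.sum_const, nsmul_eq_mul]; ring
      · intro i hi
        rw [Finset.sum_congr rfl (g := fun _ => s)]
        · rw [Finset.sum_const, nsmul_eq_mul]
        · intro j hj
          have : i ≠ j := fun h => (Finset.disjoint_left.mp hdis hi) (h ▸ hj)
          simp [dd, this]
    rw [h1]
    have h2 : S.card + J.card ≤ Fintype.card α := by
      rw [← Finset.card_union_of_disjoint hdis]; exact Finset.card_le_univ _
    have h3 : (S.card * J.card : ℝ) ≤ qbar (Fintype.card α) := by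
      exact_mod_cast mul_le_qbar h2
    nlinarith
  · rw [Finset.not_disjoint_iff] at hdis
    obtain ⟨x, hxS, hxJ⟩ := hdis
    by_cases hS : S = {x}
    · subst hS
      rw [Finset.sum_singleton]
      exact hstar x J hxJ
    · by_cases hJ : J = {x}
      · subst hJ
        simp only [Finset.sum_singleton]
        have : ∀ i ∈ S, s ^ dd i x = s ^ dd x i := by
          intro i _
          simp [dd, eq_comm]
        rw [Finset.sum_congr rfl this]
        exact hstar x S hxS
      · exfalso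
        obtain ⟨y, hy, hyx⟩ : ∃ y ∈ S, y ≠ x := by
          by_contra hcon
          push Not at hcon
          exact hS (Finset.eq_singleton_iff_unique_mem.mpr ⟨hxS, hcon⟩)
        obtain ⟨z, hz, hzx⟩ : ∃ z ∈ J, z ≠ x := by
          by_contra hcon
          push Not at hcon
          exact hJ (Finset.eq_singleton_iff_unique_mem.mpr ⟨hxJ, hcon⟩)
        have := hadd x hxS y hy x hxJ z hz
        have e1 : dd x x = 0 := by simp [dd]
        have e2 : dd x z = 1 := by simp [dd, Ne.symm hzx]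
        have e3 : dd y x = 1 := by simp [dd, hyx]
        have e4 : dd y z ≤ 1 := by unfold dd; split <;> omega
        omega

/-- splitting off the first letter -/
lemma sum_split {n : ℕ} (A : Finset (Fin (n + 1) → α)) (f : (Fin (n + 1) → α) → ℝ) :
    ∑ x ∈ A, f x = ∑ i : α, ∑ x' ∈ univ.filter (fun x' : Fin n → α => (Fin.cons i x' : Fin (n + 1) → α) ∈ A),
      f (Fin.cons i x') := by
  have h : ∑ x ∈ A, f x = ∑ x : Fin (n + 1) → α, if x ∈ A then f x else 0 := by
    rw [Finset.sum_ite_mem, Finset.univ_inter]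
  rw [h, ← (Fin.consEquiv fun _ : Fin (n + 1) => α).sum_comp]
  rw [Fintype.sum_prod_type]
  refine Finset.sum_congr rfl fun i _ => ?_
  rw [Finset.sum_filter]
  rfl

theorem additive_bound {s L : ℝ} (hs : 0 < s)
    (hL1 : 1 + ((Fintype.card α : ℝ) - 1) * s ≤ L) (hL2 : (qbar (Fintype.card α) : ℝ) * s ≤ L)
    (hL0 : 0 < L) :
    ∀ (n : ℕ) (A B : Finset (Fin n → α)) (f g : (Fin n → α) → ℝ), AddPair A B →
      (∀ x ∈ A, 0 < f x) → (∀ y ∈ B, 0 < g y) →
      (∀ x ∈ A, ∀ y ∈ B, f x * g y = s ^ hammingDist x y) →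
      (∑ x ∈ A, f x) * (∑ y ∈ B, g y) ≤ L ^ n := by
  intro n
  induction n with
  | zero =>
    intro A B f g _ hf hg hfg
    rw [Finset.sum_mul_sum, pow_zero]
    calc ∑ i ∈ A, ∑ j ∈ B, f i * g j = ∑ i ∈ A, ∑ j ∈ B, (1 : ℝ) := by
          refine Finset.sum_congr rfl fun i hi => Finset.sum_congr rfl fun j hj => ?_
          rw [hfg i hi j hj]
          have : i = j := Subsingleton.elim _ _
          rw [this, hammingDist_self, pow_zero]
      _ = (A.card * B.card : ℝ) := by simp [Finset.sum_const]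
      _ ≤ 1 := by
          have h1 : A.card ≤ 1 := by
            calc A.card ≤ Fintype.card (Fin 0 → α) := Finset.card_le_univ A
              _ = 1 := by simp
          have h2 : B.card ≤ 1 := by
            calc B.card ≤ Fintype.card (Fin 0 → α) := Finset.card_le_univ B
              _ = 1 := by simp
          have h3 : (A.card : ℝ) ≤ 1 := by exact_mod_cast h1
          have h4 : (B.card : ℝ) ≤ 1 := by exact_mod_cast h2
          have h5 : (0 : ℝ) ≤ A.card := Nat.cast_nonneg _
          nlinarith [Nat.cast_nonneg (α := ℝ) B.card]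
  | succ n ih =>
    intro A B f g hadd hf hg hfg
    classical
    -- the pieces
    set Ai : α → Finset (Fin n → α) := fun i =>
      univ.filter (fun x' : Fin n → α => (Fin.cons i x' : Fin (n + 1) → α) ∈ A) with hAi
    have memA : ∀ i x', x' ∈ Ai i ↔ (Fin.cons i x' : Fin (n + 1) → α) ∈ A := by
      intro i x'; simp [hAi]
    set J : (Fin n → α) → Finset α := fun y' =>
      univ.filter (fun j => (Fin.cons j y' : Fin (n + 1) → α) ∈ B) with hJ
    have memJ : ∀ y' j, j ∈ J y' ↔ (Fin.cons j y' : Fin (n + 1) → α) ∈ B := by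
      intro y' j; simp [hJ]
    set B' : Finset (Fin n → α) := univ.filter (fun y' => (J y').Nonempty) with hB'
    have memB' : ∀ y', y' ∈ B' ↔ (J y').Nonempty := by
      intro y'; simp [hB']
    set S : Finset α := univ.filter (fun i => (Ai i).Nonempty) with hS
    have memS : ∀ i, i ∈ S ↔ (Ai i).Nonempty := by
      intro i; simp [hS]
    by_cases hAe : A = ∅
    · subst hAe; simp; positivity
    obtain ⟨x0, hx0⟩ := Finset.nonempty_iff_ne_empty.mpr hAe
    -- a chosen word in each nonempty piece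
    have hch : ∀ i, ∃ w : Fin n → α, i ∈ S → w ∈ Ai i := by
      intro i
      by_cases hi : i ∈ S
      · obtain ⟨w, hw⟩ := (memS i).mp hi
        exact ⟨w, fun _ => hw⟩
      · exact ⟨Fin.tail x0, fun h => absurd h hi⟩
    choose w hw using hch
    -- the weights on B'
    set v : α → (Fin n → α) → ℝ := fun i y' =>
      s ^ hammingDist (w i) y' / f (Fin.cons i (w i)) with hv
    have hfpos : ∀ i ∈ S, 0 < f (Fin.cons i (w i)) := fun i hi =>
      hf _ ((memA i (w i)).mp (hw i hi))
    have hvpos : ∀ i ∈ S, ∀ y', 0 < v i y' := by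
      intro i hi y'
      have := hfpos i hi
      simp only [hv]; positivity
    have hgv : ∀ i ∈ S, ∀ y', ∀ j ∈ J y', g (Fin.cons j y') = s ^ dd i j * v i y' := by
      intro i hi y' j hj
      have h1 := hfg _ ((memA i (w i)).mp (hw i hi)) _ ((memJ y' j).mp hj)
      rw [hd_cons, pow_add] at h1
      have h2 := hfpos i hi
      simp only [hv]
      field_simp
      linarith
    have hfv : ∀ i ∈ S, ∀ x' ∈ Ai i, ∀ y' ∈ B', f (Fin.cons i x') * v i y' = s ^ hammingDist x' y' := by
      intro i hi x' hx' y' hy'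
      obtain ⟨j, hj⟩ := (memB' y').mp hy'
      have h1 := hfg _ ((memA i x').mp hx') _ ((memJ y' j).mp hj)
      rw [hd_cons, pow_add, hgv i hi y' j hj] at h1
      have h3 : (0 : ℝ) < s ^ dd i j := by positivity
      have h4 : s ^ dd i j * (f (Fin.cons i x') * v i y') = s ^ dd i j * s ^ hammingDist x' y' := by
        linarith
      exact mul_left_cancel₀ (ne_of_gt h3) h4
    set U : α → ℝ := fun i => ∑ x' ∈ Ai i, f (Fin.cons i x') with hU
    set V : α → ℝ := fun i => ∑ y' ∈ B', v i y' with hV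
    have hUpos : ∀ i ∈ S, 0 < U i := by
      intro i hi
      refine Finset.sum_pos (fun x' hx' => hf _ ((memA i x').mp hx')) ((memS i).mp hi)
    -- induction hypothesis
    have hIH : ∀ i ∈ S, U i * V i ≤ L ^ n := by
      intro i hi
      refine ih (Ai i) B' (fun x' => f (Fin.cons i x')) (v i) ?_ ?_ ?_ ?_
      · intro x hx x' hx' y hy y' hy'
        obtain ⟨j, hj⟩ := (memB' y).mp hy
        obtain ⟨j', hj'⟩ := (memB' y').mp hy'
        have := hadd _ ((memA i x).mp hx) _ ((memA i x').mp hx') _ ((memJ y j).mp hj)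
          _ ((memJ y' j').mp hj')
        rw [hd_cons, hd_cons, hd_cons, hd_cons] at this
        omega
      · intro x' hx'; exact hf _ ((memA i x').mp hx')
      · intro y' _; exact hvpos i hi y'
      · intro x' hx' y' hy'; exact hfv i hi x' hx' y' hy'
    -- one coordinate
    have hone : ∀ y' ∈ B', (∑ i ∈ S, (v i y')⁻¹) * (∑ j ∈ J y', g (Fin.cons j y')) ≤ L := by
      intro y' hy'
      refine one_coord hs hL1 hL2 S (J y') (fun i => (v i y')⁻¹)
        (fun j => g (Fin.cons j y')) ?_ ?_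
      · intro i hi j hj
        rw [hgv i hi y' j hj]
        have := hvpos i hi y'
        field_simp
      · intro i hi i' hi' j hj j' hj'
        have := hadd _ ((memA i (w i)).mp (hw i hi)) _ ((memA i' (w i')).mp (hw i' hi'))
          _ ((memJ y' j).mp hj) _ ((memJ y' j').mp hj')
        rw [hd_cons, hd_cons, hd_cons, hd_cons] at this
        omega
    -- totals
    have hsumA : ∑ x ∈ A, f x = ∑ i ∈ S, U i := by
      rw [sum_split A f]
      symm
      refine Finset.sum_subset (Finset.subset_univ S) ?_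
      intro i _ hi
      have : Ai i = ∅ := by
        by_contra hne
        exact hi ((memS i).mpr (Finset.nonempty_iff_ne_empty.mpr hne))
      simp only [hU, this, Finset.sum_empty]
    have hsumB : ∑ y ∈ B, g y = ∑ y' ∈ B', ∑ j ∈ J y', g (Fin.cons j y') := by
      rw [sum_split B g]
      have e1 : ∀ j : α, ∑ x' ∈ univ.filter
          (fun x' : Fin n → α => (Fin.cons j x' : Fin (n + 1) → α) ∈ B), g (Fin.cons j x')
          = ∑ x' : Fin n → α, if (Fin.cons j x' : Fin (n + 1) → α) ∈ B then g (Fin.cons j x') else 0 := by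
        intro j; rw [Finset.sum_filter]
      simp only [e1]
      rw [Finset.sum_comm]
      have e2 : ∑ y' ∈ B', ∑ j ∈ J y', g (Fin.cons j y')
          = ∑ y' : Fin n → α, ∑ j ∈ J y', g (Fin.cons j y') := by
        refine Finset.sum_subset (Finset.subset_univ B') ?_
        intro y' _ hy'
        have : J y' = ∅ := by
          by_contra hne
          exact hy' ((memB' y').mpr (Finset.nonempty_iff_ne_empty.mpr hne))
        rw [this, Finset.sum_empty]
      rw [e2]
      refine Finset.sum_congr rfl fun y' _ => ?_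
      rw [hJ, Finset.sum_filter]
    rw [hsumA, hsumB]
    set T : ℝ := ∑ i ∈ S, U i with hT
    have hx0S : x0 0 ∈ S := by
      rw [memS]
      refine ⟨Fin.tail x0, ?_⟩
      rw [memA, Fin.cons_self_tail]; exact hx0
    have hTpos : 0 < T := Finset.sum_pos hUpos ⟨_, hx0S⟩
    -- Cauchy-Schwarz
    have hcs : ∀ y' ∈ B', (∑ j ∈ J y', g (Fin.cons j y')) * T ^ 2 ≤ L * ∑ i ∈ S, U i ^ 2 * v i y' := by
      intro y' hy'
      have h1 : T ^ 2 ≤ (∑ i ∈ S, U i ^ 2 * v i y') * (∑ i ∈ S, (v i y')⁻¹) := by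
        refine Finset.sum_sq_le_sum_mul_sum_of_sq_le_mul S ?_ ?_ ?_
        · intro i hi
          have := hvpos i hi y'
          positivity
        · intro i hi
          have := hvpos i hi y'
          positivity
        · intro i hi
          have := hvpos i hi y'
          refine le_of_eq ?_
          field_simp
      have h2 : 0 ≤ ∑ j ∈ J y', g (Fin.cons j y') :=
        Finset.sum_nonneg fun j hj => (hg _ ((memJ y' j).mp hj)).le
      have h3 : 0 ≤ ∑ i ∈ S, U i ^ 2 * v i y' :=
        Finset.sum_nonneg fun i hi => by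
          have := hvpos i hi y'
          positivity
      calc (∑ j ∈ J y', g (Fin.cons j y')) * T ^ 2
          ≤ (∑ j ∈ J y', g (Fin.cons j y')) *
            ((∑ i ∈ S, U i ^ 2 * v i y') * (∑ i ∈ S, (v i y')⁻¹)) :=
            mul_le_mul_of_nonneg_left h1 h2
        _ = ((∑ i ∈ S, (v i y')⁻¹) * (∑ j ∈ J y', g (Fin.cons j y'))) *
            (∑ i ∈ S, U i ^ 2 * v i y') := by ring
        _ ≤ L * ∑ i ∈ S, U i ^ 2 * v i y' :=
            mul_le_mul_of_nonneg_right (hone y' hy') h3
    have htot : (∑ y' ∈ B', ∑ j ∈ J y', g (Fin.cons j y')) * T ^ 2 ≤ L ^ (n + 1) * T := by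
      calc (∑ y' ∈ B', ∑ j ∈ J y', g (Fin.cons j y')) * T ^ 2
          = ∑ y' ∈ B', (∑ j ∈ J y', g (Fin.cons j y')) * T ^ 2 := by rw [Finset.sum_mul]
        _ ≤ ∑ y' ∈ B', L * ∑ i ∈ S, U i ^ 2 * v i y' := Finset.sum_le_sum hcs
        _ = L * ∑ i ∈ S, U i * (U i * V i) := by
            rw [← Finset.mul_sum, Finset.sum_comm]
            congr 1
            refine Finset.sum_congr rfl fun i _ => ?_
            simp only [hV]
            rw [← Finset.mul_sum]; ring
        _ ≤ L * ∑ i ∈ S, U i * L ^ n := by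
            refine mul_le_mul_of_nonneg_left (Finset.sum_le_sum fun i hi => ?_) hL0.le
            exact mul_le_mul_of_nonneg_left (hIH i hi) (hUpos i hi).le
        _ = L ^ (n + 1) * T := by
            rw [← Finset.sum_mul, ← hT]; ring
    have h5 : T * (T * ∑ y' ∈ B', ∑ j ∈ J y', g (Fin.cons j y')) ≤ T * L ^ (n + 1) := by
      nlinarith [htot]
    exact le_of_mul_le_mul_left h5 hTpos

/-- Constant distance pairs. -/
theorem const_bound {s L : ℝ} (hs : 0 < s)
    (hL1 : 1 + ((Fintype.card α : ℝ) - 1) * s ≤ L) (hL2 : (qbar (Fintype.card α) : ℝ) * s ≤ L)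
    (hL0 : 0 < L) {n δ : ℕ} (A B : Finset (Fin n → α))
    (h : ∀ x ∈ A, ∀ y ∈ B, hammingDist x y = δ) :
    (A.card * B.card : ℝ) * s ^ δ ≤ L ^ n := by
  have := additive_bound hs hL1 hL2 hL0 n A B (fun _ => 1) (fun _ => s ^ δ)
    (by
      intro x hx x' hx' y hy y' hy'
      rw [h x hx y hy, h x' hx' y' hy', h x hx y' hy', h x' hx' y hy])
    (fun _ _ => one_pos) (fun _ _ => by positivity)
    (by intro x hx y hy; rw [h x hx y hy, one_mul])
  simp only [Finset.sum_const, nsmul_eq_mul, mul_one] at this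
  linarith

end Core

/-! ### Modes of binomial laws -/

/-- binomial weight -/
noncomputable def bw (m : ℕ) (y : ℝ) (k : ℕ) : ℝ := (m.choose k : ℝ) * y ^ k * (1 - y) ^ (m - k)

lemma bw_eq (m : ℕ) (y : ℝ) (k : ℕ) : bw m y k = (bernsteinPolynomial ℝ m k).eval y := by
  unfold bw bernsteinPolynomial
  simp

lemma bw_sum (m : ℕ) (y : ℝ) : ∑ k ∈ range (m + 1), bw m y k = 1 := by
  have := congrArg (Polynomial.eval y) (bernsteinPolynomial.sum ℝ m)
  rw [Polynomial.eval_finsetSum] at this
  simpa [bw_eq] using this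

lemma bw_var (m : ℕ) (y : ℝ) :
    ∑ k ∈ range (m + 1), ((k : ℝ) - m * y) ^ 2 * bw m y k = m * y * (1 - y) := by
  have := congrArg (Polynomial.eval y) (bernsteinPolynomial.variance ℝ m)
  rw [Polynomial.eval_finsetSum] at this
  simp only [Polynomial.eval_mul, Polynomial.eval_pow, Polynomial.eval_sub, Polynomial.eval_natCast,
    Polynomial.eval_one, Polynomial.eval_X, nsmul_eq_mul] at this
  rw [← this]
  refine Finset.sum_congr rfl fun k _ => ?_
  rw [bw_eq]; ring

lemma bw_nonneg {m : ℕ} {y : ℝ} (h0 : 0 ≤ y) (h1 : y ≤ 1) (k : ℕ) : 0 ≤ bw m y k := by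
  unfold bw
  have : 0 ≤ 1 - y := by linarith
  positivity

/-- ratio of consecutive weights -/
lemma bw_ratio {m : ℕ} {y : ℝ} {k : ℕ} (hk : k < m) :
    bw m y (k + 1) * ((k + 1 : ℝ) * (1 - y)) = bw m y k * ((m - k : ℝ) * y) := by
  unfold bw
  have h1 : (m.choose (k + 1) : ℝ) * (k + 1) = m.choose k * (m - k) := by
    have := Nat.choose_succ_right_eq m k
    have h2 : ((m.choose (k + 1) * (k + 1) : ℕ) : ℝ) = ((m.choose k * (m - k) : ℕ) : ℝ) := by
      exact_mod_cast this
    push_cast [Nat.cast_sub hk.le] at h2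
    exact h2
  obtain ⟨r, rfl⟩ := Nat.exists_eq_add_of_lt hk
  have e1 : k + r + 1 - (k + 1) = r := by omega
  have e2 : k + r + 1 - k = r + 1 := by omega
  rw [e1, e2]
  push_cast at *
  calc _ = (((k + r + 1).choose (k + 1) : ℝ) * (k + 1)) * (y ^ (k + 1) * (1 - y) ^ (r + 1)) := by ring
    _ = _ := by rw [h1]; ring

/-- the mode -/
lemma bw_le_mode {m : ℕ} {y : ℝ} (h0 : 0 < y) (h1 : y < 1) {j : ℕ} (hj : j ≤ m)
    (hj1 : (m + 1 : ℝ) * y - 1 ≤ j) (hj2 : (j : ℝ) ≤ (m + 1) * y) (k : ℕ) (hk : k ≤ m) :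
    bw m y k ≤ bw m y j := by
  have hup : ∀ k, k < j → bw m y k ≤ bw m y (k + 1) := by
    intro k hk
    have hkm : k < m := lt_of_lt_of_le hk hj
    have hr := bw_ratio (y := y) hkm
    have hkj : (k : ℝ) + 1 ≤ j := by exact_mod_cast hk
    have hkm' : (k : ℝ) + 1 ≤ m := by exact_mod_cast hkm
    have hA : (k + 1 : ℝ) * (1 - y) ≤ (m - k : ℝ) * y := by nlinarith
    have hpos : 0 < (k + 1 : ℝ) * (1 - y) := by
      have : 0 < 1 - y := by linarith
      positivity
    have hb := bw_nonneg (m := m) h0.le h1.le k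
    have h2 : bw m y k * ((k + 1 : ℝ) * (1 - y)) ≤ bw m y (k + 1) * ((k + 1 : ℝ) * (1 - y)) := by
      rw [hr]; exact mul_le_mul_of_nonneg_left hA hb
    exact le_of_mul_le_mul_right h2 hpos
  have hdown : ∀ k, j ≤ k → k < m → bw m y (k + 1) ≤ bw m y k := by
    intro k hk hkm
    have hr := bw_ratio (y := y) hkm
    have hkj : (j : ℝ) ≤ k := by exact_mod_cast hk
    have hA : (m - k : ℝ) * y ≤ (k + 1 : ℝ) * (1 - y) := by nlinarith
    have hpos : 0 < (k + 1 : ℝ) * (1 - y) := by
      have : 0 < 1 - y := by linarith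
      positivity
    have hb := bw_nonneg (m := m) h0.le h1.le k
    have h2 : bw m y (k + 1) * ((k + 1 : ℝ) * (1 - y)) ≤ bw m y k * ((k + 1 : ℝ) * (1 - y)) := by
      rw [hr]; exact mul_le_mul_of_nonneg_left hA hb
    exact le_of_mul_le_mul_right h2 hpos
  have up2 : ∀ d k, k + d = j → bw m y k ≤ bw m y j := by
    intro d
    induction d with
    | zero => intro k hk; rw [add_zero] at hk; rw [hk]
    | succ d ih =>
      intro k hk
      exact (hup k (by omega)).trans (ih (k + 1) (by omega))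
  have down2 : ∀ d, j + d ≤ m → bw m y (j + d) ≤ bw m y j := by
    intro d
    induction d with
    | zero => intro _; exact le_rfl
    | succ d ih =>
      intro hd
      exact (hdown (j + d) (by omega) (by omega)).trans (ih (by omega))
  rcases le_total k j with h | h
  · exact up2 (j - k) k (by omega)
  · obtain ⟨d, rfl⟩ := Nat.exists_eq_add_of_le h
    exact down2 d hk

/-- clamped cubic -/
noncomputable def ph (h t : ℝ) : ℝ := h ^ 2 * t - t ^ 3 / 3
noncomputable def Ph (h t : ℝ) : ℝ := ph h (max (-h) (min t h))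

lemma Ph_mono {h : ℝ} (hh : 0 < h) {a b : ℝ} (hab : a ≤ b) : 0 ≤ Ph h b - Ph h a := by
  unfold Ph
  have h1 : max (-h) (min a h) ≤ max (-h) (min b h) := max_le_max le_rfl (min_le_min hab le_rfl)
  have h2 : -h ≤ max (-h) (min a h) := le_max_left _ _
  have h3 : max (-h) (min b h) ≤ h := max_le (by linarith) (min_le_right _ _)
  set u := max (-h) (min a h)
  set w := max (-h) (min b h)
  unfold ph
  nlinarith [sq_nonneg (u + w), sq_nonneg (u - w), mul_nonneg (sub_nonneg.mpr h1) (sub_nonneg.mpr h3), mul_nonneg (sub_nonneg.mpr h1) (sub_nonneg.mpr h2), mul_nonneg (mul_nonneg (sub_nonneg.mpr h1) (sub_nonneg.mpr h3)) (by linarith : (0:ℝ) ≤ u + h), mul_nonneg (mul_nonneg (sub_nonneg.mpr h1) (sub_nonneg.mpr h3)) (by linarith : (0:ℝ) ≤ w + h), mul_nonneg (mul_nonneg (sub_nonneg.mpr h1) (by linarith : (0:ℝ) ≤ h - u)) (by linarith : (0:ℝ) ≤ u + h), mul_nonneg (mul_nonneg (sub_nonneg.mpr h1) (by linarith : (0:ℝ) ≤ h - u)) (by linarith : (0:ℝ) ≤ w + h)]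

lemma Ph_mid {h t : ℝ} (h1 : -h ≤ t) (h2 : t ≤ h) : Ph h t = ph h t := by
  unfold Ph; rw [min_eq_left h2, max_eq_right h1]

lemma Ph_hi {h t : ℝ} (hh : 0 < h) (h2 : h ≤ t) : Ph h t = ph h h := by
  unfold Ph; rw [min_eq_right h2, max_eq_right (by linarith)]

lemma Ph_lo {h t : ℝ} (hh : 0 < h) (h2 : t ≤ -h) : Ph h t = ph h (-h) := by
  unfold Ph; rw [min_eq_left (by linarith), max_eq_left h2]

lemma ph_anti_hi {h a b : ℝ} (hh : 0 < h) (ha : h ≤ a) (hab : a ≤ b) : ph h b ≤ ph h a := by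
  unfold ph
  nlinarith [mul_nonneg (sub_nonneg.mpr hab) (sub_nonneg.mpr ha), mul_nonneg (mul_nonneg (sub_nonneg.mpr hab) (sub_nonneg.mpr ha)) hh.le, sq_nonneg (a - b), mul_nonneg (sub_nonneg.mpr hab) (sq_nonneg (a - h)), mul_nonneg (sub_nonneg.mpr hab) (sq_nonneg (b - h)), mul_nonneg (sub_nonneg.mpr hab) (mul_nonneg (sub_nonneg.mpr ha) (by linarith : (0:ℝ) ≤ b - h)), mul_nonneg (mul_nonneg (sub_nonneg.mpr hab) (by linarith : (0:ℝ) ≤ b - h)) hh.le]

lemma ph_neg (h t : ℝ) : ph h (-t) = - ph h t := by unfold ph; ring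

lemma ph_anti_lo {h a b : ℝ} (hh : 0 < h) (hb : b ≤ -h) (hab : a ≤ b) : ph h b ≤ ph h a := by
  have := ph_anti_hi (h := h) (a := -b) (b := -a) hh (by linarith) (by linarith)
  rw [ph_neg, ph_neg] at this
  linarith

lemma ph_le_Ph {h : ℝ} (hh : 0 < h) {a b : ℝ} (hab : a ≤ b) : ph h b - ph h a ≤ Ph h b - Ph h a := by
  -- the difference ph - Ph is antitone
  rcases le_total a (-h) with ha | ha
  · have ea := Ph_lo hh ha
    rcases le_total b (-h) with hb | hb
    · rw [ea, Ph_lo hh hb]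
      have := ph_anti_lo hh hb hab
      linarith
    · have h1 := ph_anti_lo hh le_rfl ha
      rcases le_total b h with hb' | hb'
      · rw [ea, Ph_mid hb hb']; linarith
      · rw [ea, Ph_hi hh hb']
        have := ph_anti_hi hh le_rfl hb'
        linarith
  · rcases le_total a h with ha' | ha'
    · rw [Ph_mid ha ha']
      rcases le_total b h with hb' | hb'
      · rw [Ph_mid (by linarith) hb']
      · rw [Ph_hi hh hb']
        have := ph_anti_hi hh le_rfl hb'
        linarith
    · rw [Ph_hi hh ha', Ph_hi hh (by linarith)]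
      have := ph_anti_hi hh ha' hab
      linarith

lemma Ph_total {h : ℝ} (hh : 0 < h) (a b : ℝ) : Ph h b - Ph h a ≤ 4 / 3 * h ^ 3 := by
  have hb : Ph h b ≤ 2 / 3 * h ^ 3 := by
    rcases le_total b h with h1 | h1
    · have := Ph_mono hh h1
      rw [Ph_hi hh le_rfl] at this
      have e : ph h h = 2 / 3 * h ^ 3 := by unfold ph; ring
      linarith
    · rw [Ph_hi hh h1]; unfold ph; apply le_of_eq; ring
  have ha : -(2 / 3 * h ^ 3) ≤ Ph h a := by
    rcases le_total (-h) a with h1 | h1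
    · have := Ph_mono hh h1
      rw [Ph_lo hh le_rfl] at this
      have e : ph h (-h) = -(2 / 3 * h ^ 3) := by unfold ph; ring
      linarith
    · rw [Ph_lo hh h1]; unfold ph; apply le_of_eq; ring
  linarith

/-- A mode of the binomial law `Bin(m, y)` has probability at least `1 / √(3m+1)`. -/
lemma mode_lower {m : ℕ} {y : ℝ} (h0 : 0 < y) (h1 : y < 1) {j : ℕ} (hj : j ≤ m)
    (hj1 : (m + 1 : ℝ) * y - 1 ≤ j) (hj2 : (j : ℝ) ≤ (m + 1) * y) :
    1 ≤ √(3 * m + 1) * bw m y j := by
  set P := bw m y j with hP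
  have hPpos : 0 < P := by
    rw [hP]; unfold bw
    have : 0 < 1 - y := by linarith
    have : 0 < m.choose j := Nat.choose_pos hj
    positivity
  set h : ℝ := 1 / (2 * P) with hh
  have hhpos : 0 < h := by positivity
  have key : h ^ 2 - m * y * (1 - y) - 1 / 12 ≤ P * (4 / 3 * h ^ 3) := by
    have e1 : h ^ 2 - m * y * (1 - y) - 1 / 12
        = ∑ k ∈ range (m + 1), bw m y k *
          (ph h ((k : ℝ) + 1 / 2 - m * y) - ph h ((k : ℝ) - 1 / 2 - m * y)) := by
      have e2 : ∀ k ∈ range (m + 1), bw m y k *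
          (ph h ((k : ℝ) + 1 / 2 - m * y) - ph h ((k : ℝ) - 1 / 2 - m * y))
          = (h ^ 2 - 1 / 12) * bw m y k - ((k : ℝ) - m * y) ^ 2 * bw m y k := by
        intro k _
        unfold ph; ring
      rw [Finset.sum_congr rfl e2, Finset.sum_sub_distrib, ← Finset.mul_sum, bw_sum, bw_var]
      ring
    rw [e1]
    calc _ ≤ ∑ k ∈ range (m + 1), P *
          (Ph h (((k + 1 : ℕ) : ℝ) - 1 / 2 - m * y) - Ph h ((k : ℝ) - 1 / 2 - m * y)) := by
          refine Finset.sum_le_sum fun k hk => ?_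
          have hkm : k ≤ m := by simpa [Nat.lt_succ_iff] using hk
          have a1 := bw_le_mode h0 h1 hj hj1 hj2 k hkm
          have a2 := bw_nonneg (m := m) h0.le h1.le k
          have e3 : (((k + 1 : ℕ) : ℝ) - 1 / 2 - m * y) = (k : ℝ) + 1 / 2 - m * y := by
            push_cast; ring
          rw [e3]
          have a3 := ph_le_Ph hhpos (a := (k : ℝ) - 1 / 2 - m * y) (b := (k : ℝ) + 1 / 2 - m * y)
            (by linarith)
          have a4 := Ph_mono hhpos (a := (k : ℝ) - 1 / 2 - m * y) (b := (k : ℝ) + 1 / 2 - m * y)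
            (by linarith)
          calc _ ≤ bw m y k * (Ph h ((k : ℝ) + 1 / 2 - m * y) - Ph h ((k : ℝ) - 1 / 2 - m * y)) :=
                mul_le_mul_of_nonneg_left a3 a2
            _ ≤ _ := mul_le_mul_of_nonneg_right a1 a4
      _ = P * (Ph h (((m + 1 : ℕ) : ℝ) - 1 / 2 - m * y) - Ph h (((0 : ℕ) : ℝ) - 1 / 2 - m * y)) := by
          rw [← Finset.mul_sum, Finset.sum_range_sub (fun k : ℕ => Ph h ((k : ℝ) - 1 / 2 - m * y))]
      _ ≤ _ := mul_le_mul_of_nonneg_left (Ph_total hhpos _ _) hPpos.le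
  have hvar : (m : ℝ) * y * (1 - y) ≤ m / 4 := by
    have hm : (0 : ℝ) ≤ m := Nat.cast_nonneg m
    nlinarith [mul_nonneg hm (sq_nonneg (y - 1 / 2))]
  have e4 : P * (4 / 3 * h ^ 3) = 1 / (6 * P ^ 2) := by
    rw [hh]; field_simp; ring
  have e5 : h ^ 2 = 1 / (4 * P ^ 2) := by
    rw [hh]; field_simp; ring
  rw [e4, e5] at key
  have e6 : 1 / (4 * P ^ 2) - 1 / (6 * P ^ 2) = 1 / (12 * P ^ 2) := by
    field_simp; ring
  have h7 : 1 / (12 * P ^ 2) ≤ m / 4 + 1 / 12 := by linarith
  have h8 : 1 ≤ (3 * m + 1) * P ^ 2 := by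
    rw [div_le_iff₀ (by positivity)] at h7
    nlinarith
  have h9 : 1 ≤ (√(3 * m + 1) * P) ^ 2 := by
    rw [mul_pow, Real.sq_sqrt (by positivity)]; exact h8
  nlinarith [mul_nonneg (Real.sqrt_nonneg (3 * (m : ℝ) + 1)) hPpos.le]

/-! ### The upper bound -/

lemma star_bound {q n δ : ℕ} (hq : 2 ≤ q) (hδ : δ ≤ n)
    (hreg : (δ + 1) * qbar q ≤ (n + 2) * (q - 1)) (A B : Finset (Fin n → Fin q))
    (h : ConstDist δ A B) :
    (A.card * B.card : ℝ) ≤ √(3 * n + 1) * ((q - 1 : ℕ) ^ δ * n.choose δ : ℕ) := by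
  obtain ⟨a, rfl⟩ : ∃ a, q = a + 1 := ⟨q - 1, by omega⟩
  have ha : 1 ≤ a := by omega
  simp only [Nat.add_sub_cancel] at *
  obtain ⟨e, rfl⟩ := Nat.exists_eq_add_of_le hδ
  have haR : (1 : ℝ) ≤ a := by exact_mod_cast ha
  have ha0 : (0 : ℝ) < a := by linarith
  set s : ℝ := (δ + 1) / ((e + 1) * a) with hs
  set L : ℝ := (δ + e + 2) / (e + 1) with hL
  have hspos : 0 < s := by positivity
  have hLpos : 0 < L := by positivity
  have hLs : L = 1 + a * s := by rw [hs, hL]; field_simp; ring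
  have hb := const_bound (α := Fin (a + 1)) (s := s) (L := L) hspos
    (by rw [Fintype.card_fin, hLs]; push_cast; linarith)
    (by
      rw [Fintype.card_fin]
      have h1 : ((δ + 1) * qbar (a + 1) : ℝ) ≤ (δ + e + 2) * a := by exact_mod_cast hreg
      rw [hs, hL, ← mul_div_assoc, div_le_div_iff₀ (by positivity) (by positivity)]
      have he : (0 : ℝ) < e + 1 := by positivity
      nlinarith [mul_le_mul_of_nonneg_right h1 he.le])
    hLpos A B h
  have hy0 : (0 : ℝ) < (δ + 1) / (δ + e + 2) := by positivity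
  have hy1 : ((δ + 1) / (δ + e + 2) : ℝ) < 1 := by
    rw [div_lt_one (by positivity)]; linarith [Nat.cast_nonneg (α := ℝ) e]
  have hm := mode_lower (m := δ + e) hy0 hy1 (j := δ) (by omega)
    (by
      push_cast
      rw [mul_div_assoc', sub_le_iff_le_add, div_le_iff₀ (by positivity)]
      nlinarith [Nat.cast_nonneg (α := ℝ) e, Nat.cast_nonneg (α := ℝ) δ])
    (by
      push_cast
      rw [mul_div_assoc', le_div_iff₀ (by positivity)]
      nlinarith [Nat.cast_nonneg (α := ℝ) e, Nat.cast_nonneg (α := ℝ) δ])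
  have hbw : bw (δ + e) ((δ + 1) / (δ + e + 2)) δ
      = ((δ + e).choose δ : ℝ) * (a : ℝ) ^ δ * s ^ δ / L ^ (δ + e) := by
    unfold bw
    have e1 : ((δ + 1) / (δ + e + 2) : ℝ) = a * s / L := by
      rw [hs, hL]; field_simp
    have e2 : (1 - (δ + 1) / (δ + e + 2) : ℝ) = 1 / L := by
      rw [hL]; field_simp; ring
    have e3 : δ + e - δ = e := by omega
    rw [e2, e1, e3]
    clear_value s L
    rw [div_pow (a * s) L, div_pow 1 L, one_pow, mul_pow, pow_add]
    field_simp
  rw [hbw] at hm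
  have hsp : 0 < s ^ δ := by positivity
  have hLp : 0 < L ^ (δ + e) := by positivity
  have h3 : L ^ (δ + e) ≤ √(3 * (δ + e : ℕ) + 1) * (((δ + e).choose δ : ℝ) * (a : ℝ) ^ δ * s ^ δ) := by
    rw [← mul_div_assoc, le_div_iff₀ hLp, one_mul] at hm
    exact hm
  have h4 : (A.card * B.card : ℝ) * s ^ δ ≤
      (√(3 * (δ + e : ℕ) + 1) * (((a : ℕ) ^ δ * (δ + e).choose δ : ℕ) : ℝ)) * s ^ δ := by
    refine (hb.trans h3).trans (le_of_eq ?_)
    push_cast; ring
  exact le_of_mul_le_mul_right h4 hsp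

lemma product_bound {q n δ m : ℕ} (hq : q - 1 < qbar q) (hmn : m ≤ n) (hδ : δ ≤ n)
    (hjm : n ≤ δ + m)
    (h1 : (n - δ) * qbar q ≤ (m + 1) * (qbar q - (q - 1)))
    (h2 : (m + 1) * (qbar q - (q - 1)) ≤ (n - δ + 1) * qbar q)
    (hq1 : 2 ≤ q)
    (A B : Finset (Fin n → Fin q)) (h : ConstDist δ A B) :
    (A.card * B.card : ℝ) ≤ √(3 * n + 1) *
      ((q - 1) ^ (δ - (n - m)) * qbar q ^ (n - m) * (n - (n - m)).choose (δ - (n - m)) : ℕ) := by
  obtain ⟨a, rfl⟩ : ∃ a, q = a + 1 := ⟨q - 1, by omega⟩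
  simp only [Nat.add_sub_cancel] at *
  obtain ⟨D, hD⟩ := Nat.exists_eq_add_of_lt hq
  set Q := qbar (a + 1) with hQ
  have ha : 1 ≤ a := by omega
  -- n = i + m, δ = i + j, m = j + l
  obtain ⟨i, rfl⟩ := Nat.exists_eq_add_of_le' hmn
  obtain ⟨j, rfl⟩ : ∃ j, δ = i + j := ⟨δ - i, by omega⟩
  obtain ⟨l, rfl⟩ : ∃ l, m = j + l := ⟨m - j, by omega⟩
  have e1 : i + (j + l) - (j + l) = i := by omega
  have e2 : i + j - i = j := by omega
  have e3 : i + (j + l) - i = j + l := by omega
  have e4 : i + (j + l) - (i + j) = l := by omega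
  have e5 : Q - a = D + 1 := by omega
  rw [e1, e2, e3]
  rw [e4, e5] at h1
  rw [e4, e5] at h2
  have haR : (1 : ℝ) ≤ a := by exact_mod_cast ha
  have ha0 : (0 : ℝ) < a := by linarith
  have hQR : (Q : ℝ) = a + (D + 1) := by rw [hD]; push_cast; ring
  have hQpos : (0 : ℝ) < Q := by rw [hQR]; positivity
  have hd0 : (0 : ℝ) < (D : ℝ) + 1 := by positivity
  set s : ℝ := 1 / (D + 1) with hs
  set L : ℝ := Q / (D + 1) with hL
  have hspos : 0 < s := by positivity
  have hLpos : 0 < L := by positivity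
  have hb := const_bound (α := Fin (a + 1)) (s := s) (L := L) hspos
    (by
      rw [Fintype.card_fin, hs, hL, hQR]; push_cast
      apply le_of_eq; field_simp; ring)
    (by
      rw [Fintype.card_fin, hs, hL, ← hQ]
      apply le_of_eq; field_simp)
    hLpos A B h
  have hy0 : (0 : ℝ) < a / Q := by positivity
  have hy1 : (a / Q : ℝ) < 1 := by
    rw [div_lt_one hQpos, hQR]; linarith
  have h1R : (l : ℝ) * Q ≤ (j + l + 1) * (D + 1) := by exact_mod_cast h1
  have h2R : ((j : ℝ) + l + 1) * (D + 1) ≤ (l + 1) * Q := by exact_mod_cast h2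
  have hm := mode_lower (m := j + l) hy0 hy1 (j := j) (by omega)
    (by
      push_cast
      rw [mul_div_assoc', sub_le_iff_le_add, div_le_iff₀ hQpos]
      rw [hQR] at *
      nlinarith)
    (by
      push_cast
      rw [mul_div_assoc', le_div_iff₀ hQpos]
      rw [hQR] at *
      nlinarith)
  have hbw : bw (j + l) (a / Q) j = ((j + l).choose j : ℝ) * (a : ℝ) ^ j * (D + 1) ^ l / Q ^ (j + l) := by
    unfold bw
    have e6 : j + l - j = l := by omega
    have e7 : (1 - a / Q : ℝ) = (D + 1) / Q := by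
      rw [eq_div_iff hQpos.ne', sub_mul, div_mul_cancel₀ _ hQpos.ne', hQR]; ring
    rw [e6, e7, div_pow, div_pow, pow_add]
    field_simp
  rw [hbw] at hm
  have hQp : (0 : ℝ) < Q ^ (j + l) := by positivity
  have h3 : (Q : ℝ) ^ (j + l) ≤ √(3 * (j + l : ℕ) + 1) *
      (((j + l).choose j : ℝ) * (a : ℝ) ^ j * (D + 1) ^ l) := by
    rw [← mul_div_assoc, le_div_iff₀ hQp, one_mul] at hm
    exact hm
  have hTb : (A.card * B.card : ℝ) * (D + 1) ^ l ≤ Q ^ (i + (j + l)) := by
    rw [hs, hL, div_pow, div_pow, one_pow] at hb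
    have e8 : (A.card * B.card : ℝ) * (1 / (D + 1) ^ (i + j)) * (D + 1) ^ (i + (j + l))
        ≤ Q ^ (i + (j + l)) := by
      have := mul_le_mul_of_nonneg_right hb (by positivity : (0 : ℝ) ≤ (D + 1) ^ (i + (j + l)))
      rwa [div_mul_cancel₀ _ (by positivity)] at this
    have e9 : (1 / (D + 1) ^ (i + j)) * ((D : ℝ) + 1) ^ (i + (j + l)) = (D + 1) ^ l := by
      rw [show i + (j + l) = (i + j) + l by ring, pow_add ((D : ℝ) + 1) (i + j) l]
      field_simp
    rw [mul_assoc, e9] at e8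
    exact e8
  have hsq : √(3 * ((j + l : ℕ) : ℝ) + 1) ≤ √(3 * ((i + (j + l) : ℕ) : ℝ) + 1) := by
    apply Real.sqrt_le_sqrt
    push_cast
    linarith [Nat.cast_nonneg (α := ℝ) i]
  have hDl : (0 : ℝ) < (D + 1) ^ l := by positivity
  have h4 : (A.card * B.card : ℝ) * (D + 1) ^ l ≤
      (√(3 * ((i + (j + l) : ℕ) : ℝ) + 1) * ((a ^ j * Q ^ i * (j + l).choose j : ℕ) : ℝ)) *
        (D + 1) ^ l := by
    calc (A.card * B.card : ℝ) * (D + 1) ^ l ≤ Q ^ i * Q ^ (j + l) := by
          rw [← pow_add]; exact hTb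
      _ ≤ Q ^ i * (√(3 * (j + l : ℕ) + 1) * (((j + l).choose j : ℝ) * (a : ℝ) ^ j * (D + 1) ^ l)) :=
          mul_le_mul_of_nonneg_left h3 (by positivity)
      _ ≤ Q ^ i * (√(3 * ((i + (j + l) : ℕ) : ℝ) + 1) *
          (((j + l).choose j : ℝ) * (a : ℝ) ^ j * (D + 1) ^ l)) := by
          refine mul_le_mul_of_nonneg_left (mul_le_mul_of_nonneg_right hsq (by positivity))
            (by positivity)
      _ = _ := by push_cast; ring
  exact le_of_mul_le_mul_right h4 hDl

lemma qbar_gt {q : ℕ} (hq : 4 ≤ q) : q - 1 < qbar q := by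
  unfold qbar
  rcases Nat.even_or_odd' q with ⟨k, rfl | rfl⟩
  · have h1 : 2 * k / 2 = k := by omega
    have h2 : (2 * k + 1) / 2 = k := by omega
    rw [h1, h2]
    have : 2 ≤ k := by omega
    have h3 : 2 * k ≤ k * k := Nat.mul_le_mul_right k this
    omega
  · have h1 : (2 * k + 1) / 2 = k := by omega
    have h2 : (2 * k + 1 + 1) / 2 = k + 1 := by omega
    rw [h1, h2]
    have : 2 ≤ k := by omega
    have h3 : 2 * k ≤ k * k := Nat.mul_le_mul_right k this
    have h4 : k * (k + 1) = k * k + k := by ring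
    omega

theorem upper {q n δ : ℕ} (hq : 2 ≤ q) (hδ : δ ≤ n) (A B : Finset (Fin n → Fin q))
    (h : ConstDist δ A B) : (A.card * B.card : ℝ) ≤ √(3 * n + 1) * F q n δ := by
  have hsq : (0 : ℝ) ≤ √(3 * n + 1) := Real.sqrt_nonneg _
  by_cases hq2 : q = 2
  · subst hq2
    refine (star_bound hq hδ (by simp [qbar]; omega) A B h).trans ?_
    refine mul_le_mul_of_nonneg_left ?_ hsq
    have hF : F 2 n δ = ((range (δ + 1)).filter fun i => 2 * i ≤ n).sup
      fun i => 4 ^ i * (n - 2 * i).choose (δ - i) := by simp [F]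
    rw [hF]
    have := Finset.le_sup (s := (range (δ + 1)).filter fun i => 2 * i ≤ n)
      (f := fun i => 4 ^ i * (n - 2 * i).choose (δ - i)) (b := 0) (by simp)
    simp only [pow_zero, mul_zero, Nat.sub_zero, one_mul] at this
    have e : (2 - 1) ^ δ * n.choose δ = n.choose δ := by simp
    rw [e]
    exact_mod_cast this
  by_cases hq3 : q = 3
  · subst hq3
    refine (star_bound hq hδ (by simp [qbar]; omega) A B h).trans ?_
    refine mul_le_mul_of_nonneg_left ?_ hsq
    have hF : F 3 n δ = ((range (δ + 1)).filter fun i => 3 * i ≤ n ∧ 2 * i ≤ δ).sup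
      fun i => 2 ^ (δ - 2 * i) * 18 ^ i * (n - 3 * i).choose (δ - 2 * i) := by simp [F]
    rw [hF]
    have := Finset.le_sup (s := (range (δ + 1)).filter fun i => 3 * i ≤ n ∧ 2 * i ≤ δ)
      (f := fun i => 2 ^ (δ - 2 * i) * 18 ^ i * (n - 3 * i).choose (δ - 2 * i)) (b := 0) (by simp)
    simp only [pow_zero, mul_zero, Nat.sub_zero, mul_one] at this
    exact_mod_cast this
  have hq4 : 4 ≤ q := by omega
  have hFq : F q n δ = (range (δ + 1)).sup
      fun i => (q - 1) ^ (δ - i) * qbar q ^ i * (n - i).choose (δ - i) := by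
    simp [F, hq2, hq3]
  have hQ := qbar_gt hq4
  have hterm : ∀ i, i ≤ δ →
      (q - 1) ^ (δ - i) * qbar q ^ i * (n - i).choose (δ - i) ≤ F q n δ := by
    intro i hi
    rw [hFq]
    exact Finset.le_sup (s := range (δ + 1))
      (f := fun i => (q - 1) ^ (δ - i) * qbar q ^ i * (n - i).choose (δ - i))
      (by simp; omega)
  by_cases hreg : (n - δ) * qbar q ≤ (n + 1) * (qbar q - (q - 1))
  · -- product regime
    have hex : ∃ m, (n - δ) * qbar q ≤ (m + 1) * (qbar q - (q - 1)) := ⟨n, hreg⟩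
    set m := Nat.find hex with hm
    have hm1 : (n - δ) * qbar q ≤ (m + 1) * (qbar q - (q - 1)) := Nat.find_spec hex
    have hmn : m ≤ n := Nat.find_min' hex hreg
    have hm2 : (m + 1) * (qbar q - (q - 1)) ≤ (n - δ + 1) * qbar q := by
      rcases Nat.eq_zero_or_pos m with h0 | h0
      · rw [h0]
        have : qbar q - (q - 1) ≤ qbar q := Nat.sub_le _ _
        nlinarith [Nat.zero_le ((n - δ) * qbar q)]
      · have hlt := Nat.find_min hex (m := m - 1) (by omega)
        rw [not_le] at hlt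
        have e : m - 1 + 1 = m := by omega
        rw [e] at hlt
        have h3 : qbar q - (q - 1) ≤ qbar q := Nat.sub_le _ _
        have h4 : (m + 1) * (qbar q - (q - 1)) = m * (qbar q - (q - 1)) + (qbar q - (q - 1)) := by ring
        have h5 : (n - δ + 1) * qbar q = (n - δ) * qbar q + qbar q := by ring
        omega
    have hjm : n ≤ δ + m := by
      by_contra hcon
      push Not at hcon
      have h5 : m + 1 ≤ n - δ := by omega
      have h6 : qbar q - (q - 1) < qbar q := by omega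
      have h7 : (m + 1) * (qbar q - (q - 1)) < (n - δ) * qbar q := by
        calc (m + 1) * (qbar q - (q - 1)) < (m + 1) * qbar q :=
              Nat.mul_lt_mul_of_pos_left h6 (by omega)
          _ ≤ (n - δ) * qbar q := Nat.mul_le_mul_right _ h5
      omega
    refine (product_bound hQ hmn hδ hjm hm1 hm2 hq A B h).trans ?_
    refine mul_le_mul_of_nonneg_left ?_ hsq
    exact_mod_cast hterm (n - m) (by omega)
  · push Not at hreg
    refine (star_bound hq hδ ?_ A B h).trans ?_
    · obtain ⟨D, hD⟩ := Nat.exists_eq_add_of_lt hQ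
      obtain ⟨a, rfl⟩ : ∃ a, q = a + 1 := ⟨q - 1, by omega⟩
      simp only [Nat.add_sub_cancel] at *
      obtain ⟨l, rfl⟩ := Nat.exists_eq_add_of_le hδ
      have e1 : δ + l - δ = l := by omega
      have e2 : qbar (a + 1) - a = D + 1 := by omega
      rw [e1, e2] at hreg
      nlinarith
    · refine mul_le_mul_of_nonneg_left ?_ hsq
      have := hterm 0 (by omega)
      simp only [Nat.sub_zero, pow_zero, mul_one] at this
      exact_mod_cast this

/-! ### The lower bound -/

/-- `k` is the product of the cardinalities of some pair -/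
def Ach (q n δ k : ℕ) : Prop :=
  ∃ A B : Finset (Fin n → Fin q), ConstDist δ A B ∧ k = A.card * B.card

lemma hd_append {q n₁ n₂ : ℕ} (x y : Fin n₁ → Fin q) (x' y' : Fin n₂ → Fin q) :
    hammingDist (Fin.append x x') (Fin.append y y') = hammingDist x y + hammingDist x' y' := by
  unfold hammingDist
  rw [Finset.card_filter, Finset.card_filter, Finset.card_filter, Fin.sum_univ_add]
  simp only [Fin.append_left, Fin.append_right]

lemma append_inj {q n₁ n₂ : ℕ} :
    Function.Injective fun p : (Fin n₁ → Fin q) × (Fin n₂ → Fin q) => Fin.append p.1 p.2 := by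
  rintro ⟨x, x'⟩ ⟨y, y'⟩ h
  simp only at h
  have h1 : x = y := by
    funext i
    have := congrFun h (Fin.castAdd n₂ i)
    simpa using this
  have h2 : x' = y' := by
    funext i
    have := congrFun h (Fin.natAdd n₁ i)
    simpa using this
  rw [h1, h2]

lemma Ach.mul {q n₁ n₂ δ₁ δ₂ k₁ k₂ : ℕ} (h₁ : Ach q n₁ δ₁ k₁) (h₂ : Ach q n₂ δ₂ k₂) :
    Ach q (n₁ + n₂) (δ₁ + δ₂) (k₁ * k₂) := by
  obtain ⟨A₁, B₁, hc₁, rfl⟩ := h₁
  obtain ⟨A₂, B₂, hc₂, rfl⟩ := h₂
  refine ⟨(A₁ ×ˢ A₂).image fun p => Fin.append p.1 p.2, (B₁ ×ˢ B₂).image fun p => Fin.append p.1 p.2,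
    ?_, ?_⟩
  · intro x hx y hy
    rw [Finset.mem_image] at hx hy
    obtain ⟨⟨a, a'⟩, ha, rfl⟩ := hx
    obtain ⟨⟨b, b'⟩, hb, rfl⟩ := hy
    rw [Finset.mem_product] at ha hb
    simp only at ha hb ⊢
    rw [hd_append, hc₁ a ha.1 b hb.1, hc₂ a' ha.2 b' hb.2]
  · rw [Finset.card_image_of_injective _ append_inj, Finset.card_image_of_injective _ append_inj,
      Finset.card_product, Finset.card_product]
    ring

lemma Ach.zero (q : ℕ) : Ach q 0 0 1 := by
  refine ⟨{Fin.elim0}, {Fin.elim0}, ?_, by simp⟩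
  intro x hx y hy
  rw [Subsingleton.elim x y, hammingDist_self]

lemma Ach.pow {q n δ k : ℕ} (h : Ach q n δ k) (i : ℕ) : Ach q (i * n) (i * δ) (k ^ i) := by
  induction i with
  | zero => simpa using Ach.zero q
  | succ i ih =>
    have := ih.mul h
    rw [pow_succ, Nat.succ_mul, Nat.succ_mul]
    exact this

lemma sphere_card (a : ℕ) : ∀ n δ : ℕ,
    (univ.filter fun y : Fin n → Fin (a + 1) => hammingDist (fun _ => 0) y = δ).card
      = a ^ δ * n.choose δ := by
  intro n
  induction n with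
  | zero =>
    intro δ
    rcases Nat.eq_zero_or_pos δ with h | h
    · subst h
      rw [Finset.filter_true_of_mem]
      · simp
      · intro y _
        rw [Subsingleton.elim (fun _ => (0 : Fin (a + 1))) y, hammingDist_self]
    · rw [Finset.filter_false_of_mem]
      · rw [Nat.choose_eq_zero_of_lt h]; simp
      · intro y _
        rw [Subsingleton.elim (fun _ => (0 : Fin (a + 1))) y, hammingDist_self]
        omega
  | succ n ih =>
    intro δ
    have hsplit : (univ.filter fun y : Fin (n + 1) → Fin (a + 1) => hammingDist (fun _ => 0) y = δ).card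
        = ∑ i : Fin (a + 1), (univ.filter fun y : Fin n → Fin (a + 1) =>
            dd 0 i + hammingDist (fun _ => 0) y = δ).card := by
      rw [Finset.card_filter, ← (Fin.consEquiv fun _ : Fin (n + 1) => Fin (a + 1)).sum_comp,
        Fintype.sum_prod_type]
      refine Finset.sum_congr rfl fun i _ => ?_
      rw [Finset.card_filter]
      refine Finset.sum_congr rfl fun y _ => ?_
      have e : (fun _ : Fin (n + 1) => (0 : Fin (a + 1))) = Fin.cons 0 (fun _ => 0) := by
        funext t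
        refine Fin.cases ?_ (fun t => ?_) t <;> simp
      have e' : hammingDist (fun _ : Fin (n + 1) => (0 : Fin (a + 1)))
          ((Fin.consEquiv fun _ : Fin (n + 1) => Fin (a + 1)) (i, y))
          = dd 0 i + hammingDist (fun _ => 0) y := by
        rw [e]
        exact hd_cons (α := Fin (a + 1)) 0 i (fun _ : Fin n => 0) y
      simp only [e']
    rw [hsplit, Fin.sum_univ_succ]
    have e0 : dd (0 : Fin (a + 1)) 0 = 0 := by simp [dd]
    have e1 : ∀ i : Fin a, dd (0 : Fin (a + 1)) i.succ = 1 := by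
      intro i; simp [dd, (Fin.succ_ne_zero i).symm]
    simp only [e0, e1, zero_add, Finset.sum_const, Finset.card_univ, Fintype.card_fin, smul_eq_mul]
    rw [ih]
    rcases Nat.eq_zero_or_pos δ with h | h
    · subst h
      rw [Finset.filter_false_of_mem]
      · simp
      · intro y _; omega
    · obtain ⟨d, rfl⟩ := Nat.exists_eq_add_of_le' h
      have e2 : (univ.filter fun y : Fin n → Fin (a + 1) => 1 + hammingDist (fun _ => 0) y = d + 1)
          = univ.filter fun y : Fin n → Fin (a + 1) => hammingDist (fun _ => 0) y = d := by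
        refine Finset.filter_congr fun y _ => ?_
        omega
      rw [e2, ih, Nat.choose_succ_succ]
      ring

lemma Ach.star {q : ℕ} (hq : 1 ≤ q) (n δ : ℕ) : Ach q n δ ((q - 1) ^ δ * n.choose δ) := by
  obtain ⟨a, rfl⟩ : ∃ a, q = a + 1 := ⟨q - 1, by omega⟩
  refine ⟨{fun _ => 0}, univ.filter fun y => hammingDist (fun _ => 0) y = δ, ?_, ?_⟩
  · intro x hx y hy
    rw [Finset.mem_singleton] at hx
    subst hx
    exact (Finset.mem_filter.mp hy).2
  · rw [sphere_card, Finset.card_singleton, one_mul, Nat.add_sub_cancel]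

lemma Ach.block {q : ℕ} : Ach q 1 1 (qbar q) := by
  have hinj : Function.Injective fun (i : Fin q) (_ : Fin 1) => i := by
    intro i j h
    exact congrFun h 0
  refine ⟨(univ.filter fun i : Fin q => (i : ℕ) < q / 2).image fun i _ => i,
    (univ.filter fun i : Fin q => ¬ (i : ℕ) < q / 2).image fun i _ => i, ?_, ?_⟩
  · intro x hx y hy
    rw [Finset.mem_image] at hx hy
    obtain ⟨i, hi, rfl⟩ := hx
    obtain ⟨j, hj, rfl⟩ := hy
    have h1 := (Finset.mem_filter.mp hi).2
    have h2 := (Finset.mem_filter.mp hj).2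
    have hij : i ≠ j := fun h => h2 (h ▸ h1)
    unfold hammingDist
    simp [hij]
  · rw [Finset.card_image_of_injective _ hinj, Finset.card_image_of_injective _ hinj]
    have h1 : (univ.filter fun i : Fin q => (i : ℕ) < q / 2).card = q / 2 := by
      rw [Fin.card_filter_val_lt]
      omega
    have h2 := Finset.card_filter_add_card_filter_not (s := (univ : Finset (Fin q)))
      (fun i : Fin q => (i : ℕ) < q / 2)
    rw [h1, Finset.card_univ, Fintype.card_fin] at h2
    rw [h1]
    unfold qbar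
    congr 1
    omega

lemma Ach.block2 : Ach 2 2 1 4 :=
  ⟨univ.filter fun x => x 0 = x 1, univ.filter fun x => x 0 ≠ x 1, by unfold ConstDist; decide, by decide⟩

lemma Ach.block3 : Ach 3 3 2 18 :=
  ⟨univ.filter fun x => x 0 = x 1 ∧ x 1 = x 2,
    univ.filter fun x => x 0 ≠ x 1 ∧ x 1 ≠ x 2 ∧ x 0 ≠ x 2, by unfold ConstDist; decide +kernel,
    by decide +kernel⟩

lemma Ach.bdd (q n δ : ℕ) : BddAbove {k : ℕ | Ach q n δ k} := by
  refine ⟨Fintype.card (Fin n → Fin q) * Fintype.card (Fin n → Fin q), ?_⟩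
  rintro k ⟨A, B, _, rfl⟩
  exact Nat.mul_le_mul (Finset.card_le_univ A) (Finset.card_le_univ B)

lemma Ach.le_M {q n δ k : ℕ} (h : Ach q n δ k) : k ≤ M q n δ :=
  le_csSup (Ach.bdd q n δ) h

lemma M_ach (q n δ : ℕ) : Ach q n δ (M q n δ) := by
  refine Nat.sSup_mem (s := {k : ℕ | Ach q n δ k}) ⟨0, ∅, ∅, ?_, by simp⟩ (Ach.bdd q n δ)
  intro x hx; simp at hx

theorem lower {q : ℕ} (hq : 2 ≤ q) (n δ : ℕ) (hδ : δ ≤ n) : F q n δ ≤ M q n δ := by
  have hmix : ∀ (b c k i : ℕ), Ach q b c k → b * i ≤ n → c * i ≤ δ →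
      (q - 1) ^ (δ - c * i) * k ^ i * (n - b * i).choose (δ - c * i) ≤ M q n δ := by
    intro b c k i hk hb hc
    have h1 := (hk.pow i).mul (Ach.star (q := q) (by omega) (n - b * i) (δ - c * i))
    have e1 : i * b + (n - b * i) = n := by rw [mul_comm i b]; omega
    have e2 : i * c + (δ - c * i) = δ := by rw [mul_comm i c]; omega
    rw [e1, e2] at h1
    refine le_trans (le_of_eq ?_) h1.le_M
    ring
  unfold F
  split_ifs with h2 h3
  · subst h2
    refine Finset.sup_le fun i hi => ?_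
    rw [Finset.mem_filter, Finset.mem_range] at hi
    have := hmix 2 1 4 i Ach.block2 hi.2 (by omega)
    simpa using this
  · subst h3
    refine Finset.sup_le fun i hi => ?_
    rw [Finset.mem_filter, Finset.mem_range] at hi
    exact hmix 3 2 18 i Ach.block3 hi.2.1 hi.2.2
  · refine Finset.sup_le fun i hi => ?_
    rw [Finset.mem_range] at hi
    have := hmix 1 1 (qbar q) i Ach.block (by omega) (by omega)
    simpa using this

/-- For every alphabet size `q ≥ 2` and all `δ ≤ n` the maximum `M_q(n, δ)` is determined up to the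
factor `√(3n+1)`: it lies between `F_q(n, δ)` and `√(3n+1) · F_q(n, δ)`. -/
theorem result (q n δ : ℕ) (hq : 2 ≤ q) (hδ : δ ≤ n) :
    F q n δ ≤ M q n δ ∧ (M q n δ : ℝ) ≤ √(3 * n + 1) * F q n δ := by
  refine ⟨lower hq n δ hδ, ?_⟩
  obtain ⟨A, B, hc, hk⟩ := M_ach q n δ
  rw [hk]
  push_cast
  exact upper hq hδ A B hc

end Pool.Agent.Results.MP_990a44_co.SqrtFactor
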